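import Pool.Agent.U762.EE.Stm

set_option autoImplicit false

/-!
# Project EE, package DETe: excursions from finitely many bad points
-/

namespace Pool.Agent.U57.EE

open Pool.Agent.U762.RP Pool.Agent.U762.EE Finset

theorem t_DETe : S_DETe := by
  intro d m r M s ω hs hfin hA
  set f : ℤ → ℤ := stp d m r ω with hf
  have hB : {x : ℤ | |(x : ℝ)| < M}.Finite := by
    refine (Set.finite_Icc (-⌈M⌉) ⌈M⌉).subset ?_
    intro x hx
    have hx' : |(x : ℝ)| < M := hx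
    rw [abs_lt] at hx'
    have hM := Int.le_ceil M
    constructor
    · have : ((-⌈M⌉ : ℤ) : ℝ) ≤ x := by
        push_cast
        linarith [hx'.1]
      exact_mod_cast this
    · have : (x : ℝ) ≤ (⌈M⌉ : ℝ) := by
        linarith [hx'.2]
      exact_mod_cast this
  set F : Set ℤ := {x : ℤ | ∃ L : ℕ, Reach d m r M (|(x : ℝ)| ^ s) L x ω} ∪ {x : ℤ | |(x : ℝ)| < M} with hF
  have hFf : F.Finite := hA.union hB
  have hU : (⋃ y ∈ F, Set.range fun i : ℕ => f^[i] y).Finite := hFf.biUnion fun y _ => hfin y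
  obtain ⟨D, hD0, hD⟩ : ∃ D : ℝ, 0 ≤ D ∧ ∀ y ∈ F, ∀ i : ℕ, |((f^[i] y : ℤ) : ℝ)| ≤ D := by
    obtain ⟨D, hD⟩ := (hU.image fun z : ℤ => |(z : ℝ)|).bddAbove
    refine ⟨max D 0, le_max_right _ _, fun y hy i => le_trans (hD ?_) (le_max_left _ _)⟩
    exact ⟨f^[i] y, Set.mem_biUnion hy ⟨i, rfl⟩, rfl⟩
  have key : ∀ (x : ℤ) (i : ℕ), |((f^[i] x : ℤ) : ℝ)| ≤ max D (|(x : ℝ)| ^ s) := by
    classical
    intro x
    by_contra hcon
    push Not at hcon
    have hex : ∃ i : ℕ, max D (|(x : ℝ)| ^ s) < |((f^[i] x : ℤ) : ℝ)| := hcon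
    set i := Nat.find hex with hi
    have hi1 : max D (|(x : ℝ)| ^ s) < |((f^[i] x : ℤ) : ℝ)| := Nat.find_spec hex
    have hmin : ∀ j < i, ¬ max D (|(x : ℝ)| ^ s) < |((f^[j] x : ℤ) : ℝ)| := fun j hj => Nat.find_min hex hj
    have hDi : D < |((f^[i] x : ℤ) : ℝ)| := lt_of_le_of_lt (le_max_left _ _) hi1
    have hYi : |(x : ℝ)| ^ s < |((f^[i] x : ℤ) : ℝ)| := lt_of_le_of_lt (le_max_right _ _) hi1
    have hnF : ∀ j ≤ i, f^[j] x ∉ F := by
      intro j hj hjF
      have h1 := hD _ hjF (i - j)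
      rw [← Function.iterate_add_apply, Nat.sub_add_cancel hj] at h1
      linarith
    have hx : x ∉ F := hnF 0 (Nat.zero_le _)
    apply hx
    left
    refine ⟨i, fun j hj => ?_, fun a b hab hb he => ?_, hYi.le⟩
    · have h1 := hnF j hj.le
      have h2 : ¬ |((f^[j] x : ℤ) : ℝ)| < M := fun h => h1 (Or.inr h)
      exact not_lt.1 h2
    · have he' : f^[a] x = f^[b] x := he
      have h1 : f^[i - b + a] x = f^[i] x := by
        rw [Function.iterate_add_apply, he', ← Function.iterate_add_apply, Nat.sub_add_cancel hb.le]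
      refine hmin (i - b + a) (by omega) ?_
      rw [h1]
      exact hi1
  refine ⟨D + 1, fun x i => (key x i).trans ?_⟩
  have hx0 : 0 ≤ |(x : ℝ)| := abs_nonneg _
  have h1 : 1 ≤ (2 + |(x : ℝ)|) ^ s := Real.one_le_rpow (by linarith) hs
  have h2 : |(x : ℝ)| ^ s ≤ (2 + |(x : ℝ)|) ^ s := Real.rpow_le_rpow hx0 (by linarith) hs
  refine max_le ?_ ?_
  · nlinarith
  · nlinarith

end Pool.Agent.U57.EE
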